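import Pool.Agent.K3h98.RFH.Main
import Pool.Agent.K3h98.QI.DT

/-!
# Irreducibility for every `ℓ` from Hecke polynomials with doubly transitive Galois groups

Let `π` be an algebraic cuspidal automorphic representation of `GL_n` over `ℚ` and
`ρ : Gal(ℚbar/ℚ) → GL_n(ℚbar_ℓ)` a continuous representation attached to `π`.  For a finite set `T` of
at least three unramified primes `p ≠ ℓ` we look at the Hecke polynomials of `π` at the `p ∈ T`, with
the multisets `S p` of their roots (the Satake parameters of `π_p ⊗ |det|^((1-n)/2)`).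

Let `A` be a set of roots (at one `p ∈ T`), and `C` the multiset of the other roots.  Let `G` be the
group of the permutations of `A` that are induced by the automorphisms of `ℂ` that preserve `A` and
fix all elements of `C`.  We call `A` a block if `G` is transitive and irreducible on the space of
the rational functions on `A` with sum zero, and if the quotient of some two elements of `A` is not a
root of unity.  If `G` is doubly transitive, it has this property of irreducibility.  For example,
`A` can be the set of all roots, if the Hecke polynomial is irreducible of degree `n` with Galois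
group the symmetric or the alternating group (or a Mathieu group, `PSL_2(F_q)` with `n = q + 1`, …).

* Every subrepresentation `U` of `ρ` gives a submultiset `B` of size `dim U` of the roots at `p` such
  that for each block `A` either all elements of `A` are in `B`, or none is.
* So, if a block with `m` elements exists, then `dim U ≥ m` or `dim U ≤ n - m`.
* `ρ` is irreducible if every `k` with `0 < k ≤ n / 2` is excluded either by these conditions at one
  `p ∈ T`, or because there are no common relations of size `k` (a rational number `a / N` such that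
  for every `p ∈ T` some `k` of the roots at `p` have product `p ^ (a / N)`, up to a root of unity).
* In particular, `ρ` is irreducible if all the roots at one `p ∈ T` form a block; for example, if the
  Galois group of the Hecke polynomial at `p` is doubly transitive on its roots, and some two of them
  have a quotient which is not a root of unity.

Since the conditions do not involve `ℓ`, they give the irreducibility for all `ℓ` not in `T` (and for
all `ℓ`, if they hold for two disjoint sets `T`), over the algebraic closure `ℚbar_ℓ`.  Nothing is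
assumed at the infinite place (no regularity), no self-duality, no polarization, no purity
(Ramanujan), nothing at `ℓ` (`ρ` may be not Hodge-Tate), and only finitely many primes are used.

Proof.  The determinants of the subquotients are continuous characters of `Gal(ℚbar/ℚ)` with
algebraic values at three Frobenius elements; by the `ℓ`-adic six exponentials theorem (proved in
the library `Pool.Agent.Y115`) they are rational powers of the cyclotomic character up to finite
order.  So a subrepresentation gives a submultiset `B` of the roots with `B.prod ^ N = p ^ a`.  Let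
`I` be the set of the elements of a block `A` that are in `B`, and `J` the rest of `B`.  An
automorphism `σ` of `ℂ` which preserves `A` and fixes `C` also fixes `J.prod`, so that the relation
says that `∏ σ x / ∏ x`, `x ∈ I`, is a root of unity.  The rational functions `f` on `A` with sum
zero such that `∏ x ^ (f x)` is a root of unity form a space invariant under `G`.  If `I` is neither
empty nor `A`, this space is not zero, since `G` is transitive; hence it consists of all functions
with sum zero, and all quotients of two elements of `A` are roots of unity.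
-/

set_option autoImplicit false

namespace Pool.Agent.Results.MP_fa5bba_nt.DoublyTransitiveHecke

open NumberField Polynomial Matrix Module Pool.Agent.K3h98.QI

/-- `Q` is a prime ideal above the prime number `p` of the ring of all algebraic integers. -/
def PrimeOver (p : ℕ) (Q : Ideal (𝓞 (AlgebraicClosure ℚ))) : Prop :=
  Q.IsPrime ∧ (p : 𝓞 (AlgebraicClosure ℚ)) ∈ Q

/-- `g` is in the inertia group at `Q`. -/
def IsInertia (Q : Ideal (𝓞 (AlgebraicClosure ℚ))) (g : Gal(AlgebraicClosure ℚ/ℚ)) : Prop :=
  ∀ x : 𝓞 (AlgebraicClosure ℚ), g • x - x ∈ Q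

/-- `g` is an (arithmetic) Frobenius element at the prime ideal `Q` above `p`. -/
def IsFrobenius (p : ℕ) (Q : Ideal (𝓞 (AlgebraicClosure ℚ))) (g : Gal(AlgebraicClosure ℚ/ℚ)) :
    Prop := ∀ x : 𝓞 (AlgebraicClosure ℚ), g • x - x ^ p ∈ Q

variable {ℓ : ℕ} [Fact ℓ.Prime] {n : ℕ}

/-- The matrix of `g`. -/
noncomputable def mat (ρ : Gal(AlgebraicClosure ℚ/ℚ) →* GL (Fin n) (PadicAlgCl ℓ))
    (g : Gal(AlgebraicClosure ℚ/ℚ)) : Matrix (Fin n) (Fin n) (PadicAlgCl ℓ) :=
  (ρ g : GL (Fin n) (PadicAlgCl ℓ))

/-- The representation `ρ` is unramified at `p`, and the eigenvalues (with multiplicities) of every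
geometric Frobenius element at `p` correspond under `ι` to the complex numbers in `S`. -/
structure AttachedAt (ρ : Gal(AlgebraicClosure ℚ/ℚ) →* GL (Fin n) (PadicAlgCl ℓ))
    (ι : PadicAlgCl ℓ →+* ℂ) (p : ℕ) (S : Multiset ℂ) : Prop where
  unramified : ∀ Q, PrimeOver p Q → ∀ g, IsInertia Q g → ρ g = 1
  frobenius : ∀ Q, PrimeOver p Q → ∀ g, IsFrobenius p Q g → ((mat ρ g⁻¹).charpoly.map ι).roots = S

/-- `U` is a subrepresentation of `ρ`. -/
def Stable (ρ : Gal(AlgebraicClosure ℚ/ℚ) →* GL (Fin n) (PadicAlgCl ℓ))
    (U : Submodule (PadicAlgCl ℓ) (Fin n → PadicAlgCl ℓ)) : Prop := ∀ g, ∀ x ∈ U, mat ρ g *ᵥ x ∈ U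

/-- `ρ` is irreducible. -/
def Irreducible (ρ : Gal(AlgebraicClosure ℚ/ℚ) →* GL (Fin n) (PadicAlgCl ℓ)) : Prop :=
  0 < n ∧ ∀ U, Stable ρ U → U = ⊥ ∨ U = ⊤

/-- There is a rational number `a / N` such that for every `p ∈ T` some `k` members of the multiset
`S p` have product `p ^ (a / N)`, up to a root of unity. -/
def CommonRelation (T : Set ℕ) (S : ℕ → Multiset ℂ) (k : ℕ) : Prop :=
  ∃ (N : ℕ) (a : ℤ), 0 < N ∧ ∀ p ∈ T, ∃ B ≤ S p, Multiset.card B = k ∧ B.prod ^ N = (p : ℂ) ^ a

/-- `A` is a block of the multiset `S`: the automorphisms of `ℂ` that preserve `A` and fix the other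
members `C` of `S` are transitive on `A` and irreducible on the functions `A → ℚ` with sum zero, and
the quotient of some two elements of `A` is not a root of unity. -/
def IsBlock (S : Multiset ℂ) (A : Finset ℂ) : Prop :=
  (∃ C : Multiset ℂ, S = A.val + C ∧ IsIrred A C) ∧
    ∃ x ∈ A, ∃ y ∈ A, ∀ M : ℕ, 0 < M → x ^ M ≠ y ^ M

/-- **Irreducibility for every `ℓ` from Hecke polynomials with doubly transitive Galois groups.**

Let complex numbers `S p` be given for the primes `p` (in the application the eigenvalues of the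
Satake parameters `a_σ`, `σ = π_p ⊗ |det|^((1-n)/2)`, of an algebraic cuspidal automorphic
representation `π` of `GL_n`), algebraic for the `p` in a set `T` of at least three primes.  Let
`ℓ ∉ T`, and let `ρ` be continuous, and attached to `S` at the primes in `T`.  Then:

* every subrepresentation `U` of `ρ` gives for each `p ∈ T` a submultiset `B` of `S p` of size `dim U`
  that contains for each block `A` of `S p` all elements of `A` or none; hence the dimension of `U` is
  at least `|A|` or at most `n - |A|`;
* `ρ` is irreducible if for all `k` with `0 < k ≤ n / 2` there is no common relation of size `k`, or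
  there is a prime `p ∈ T` such that every submultiset `B` of `S p` of size `k` contains some but not
  all elements of some block of `S p`;
* `ρ` is irreducible if for some `p ∈ T` the multiset `S p` is a block;
* the property of irreducibility in the definition of a block is true if the automorphisms of `ℂ` that
  preserve `A` and fix the elements of `C` are doubly transitive on `A`. -/
theorem result (ℓ : ℕ) [Fact ℓ.Prime] {n : ℕ} (hn : 0 < n) (S : ℕ → Multiset ℂ) (T : Set ℕ)
    (hT3 : 3 ≤ T.encard) (hT : ∀ p ∈ T, p.Prime ∧ p ≠ ℓ)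
    (halg : ∀ p ∈ T, ∀ a ∈ S p, IsAlgebraic ℚ a) (ι : PadicAlgCl ℓ →+* ℂ)
    (ρ : Gal(AlgebraicClosure ℚ/ℚ) →* GL (Fin n) (PadicAlgCl ℓ)) (hρ : Continuous ρ)
    (hS : ∀ p ∈ T, AttachedAt ρ ι p (S p)) :
    (∀ U, Stable ρ U → ∀ p ∈ T,
      (∃ B ≤ S p, Multiset.card B = finrank (PadicAlgCl ℓ) U ∧
        ∀ A, IsBlock (S p) A → (∀ x ∈ A, x ∈ B) ∨ ∀ x ∈ A, x ∉ B) ∧
      ∀ A, IsBlock (S p) A →
        A.card ≤ finrank (PadicAlgCl ℓ) U ∨ finrank (PadicAlgCl ℓ) U + A.card ≤ n) ∧
    ((∀ k, 0 < k → 2 * k ≤ n → ¬ CommonRelation T S k ∨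
      ∃ p ∈ T, ∀ B ≤ S p, Multiset.card B = k →
        ∃ A, IsBlock (S p) A ∧ (∃ x ∈ A, x ∈ B) ∧ ∃ x ∈ A, x ∉ B) → Irreducible ρ) ∧
    ((∃ p ∈ T, ∃ A, IsBlock (S p) A ∧ S p = A.val) → Irreducible ρ) ∧
    ∀ A C, IsDoublyTransitive A C → IsIrred A C := by
  classical
  have hgood : ∀ p ∈ T, ∀ Q : Ideal (𝓞 (AlgebraicClosure ℚ)), Q.IsPrime →
      (p : 𝓞 (AlgebraicClosure ℚ)) ∈ Q → ∀ g, IsFrobenius p Q g →
      ((mat ρ g⁻¹).charpoly.map ι).roots = S p :=
    fun p hp Q' hQ' hpQ' g hg => (hS p hp).frobenius Q' ⟨hQ', hpQ'⟩ g hg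
  have hcard : ∀ p ∈ T, Multiset.card (S p) = n := by
    intro p hp
    obtain ⟨Q, σ, hQ, hpQ, hσ⟩ := Pool.Agent.Y115.T.exists_frobQ (hT p hp).1
    rw [← hgood p hp Q hQ.isPrime hpQ σ hσ]
    have hsplit : (((mat ρ σ⁻¹).charpoly).map ι).Splits := IsAlgClosed.splits _
    rw [← hsplit.natDegree_eq_card_roots, Polynomial.natDegree_map,
      Matrix.charpoly_natDegree_eq_dim, Fintype.card_fin]
  have hst : ∀ U : Submodule (PadicAlgCl ℓ) (Fin n → PadicAlgCl ℓ), Stable ρ U →
      ∀ g, U ≤ U.comap (Pool.Agent.Y115.R.act ρ g) := fun U hU g x hx => hU g x hx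
  have hbot : Stable ρ ⊥ := by
    intro g x hx
    rw [Submodule.mem_bot] at hx ⊢
    rw [hx, mulVec_zero]
  have htop : Stable ρ ⊤ := fun g x _ => Submodule.mem_top
  have hrel1 : ∀ U, Stable ρ U → CommonRelation T S (finrank (PadicAlgCl ℓ) U) := by
    intro U hU
    obtain ⟨N, a, hN, h⟩ := Pool.Agent.K3h98.RFH.relation ρ hρ ι T hT3 hT S hgood halg ⊥ U
      (hst _ hbot) (hst _ hU) bot_le
    refine ⟨N, a, hN, fun p hp => ?_⟩
    obtain ⟨B, hB, hBc, hBp⟩ := h p hp
    rw [finrank_bot, zero_add] at hBc
    exact ⟨B, hB, hBc, hBp⟩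
  have hrel2 : ∀ U, Stable ρ U → CommonRelation T S (n - finrank (PadicAlgCl ℓ) U) := by
    intro U hU
    obtain ⟨N, a, hN, h⟩ := Pool.Agent.K3h98.RFH.relation ρ hρ ι T hT3 hT S hgood halg U ⊤
      (hst _ hU) (hst _ htop) le_top
    refine ⟨N, a, hN, fun p hp => ?_⟩
    obtain ⟨B, hB, hBc, hBp⟩ := h p hp
    rw [finrank_top, finrank_fin_fun] at hBc
    exact ⟨B, hB, by omega, hBp⟩
  -- a common relation respects the blocks
  have hblock : ∀ k, CommonRelation T S k → ∀ p ∈ T, ∃ B ≤ S p, Multiset.card B = k ∧
      ∀ A, IsBlock (S p) A → (∀ x ∈ A, x ∈ B) ∨ ∀ x ∈ A, x ∉ B := by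
    rintro k ⟨N, a, hN, h⟩ p hp
    obtain ⟨B, hB, hBc, hBp⟩ := h p hp
    refine ⟨B, hB, hBc, ?_⟩
    rintro A ⟨⟨C, hAC, hirr⟩, hnd⟩
    rw [hAC] at hB
    exact mem_of_rel hirr hnd B hB ((p : ℚ) ^ a)
      (zpow_ne_zero _ (Nat.cast_ne_zero.2 (hT p hp).1.ne_zero)) N hN (by rw [hBp]; push_cast; rfl)
  -- the number of elements
  have hdim : ∀ k, CommonRelation T S k → ∀ p ∈ T, ∀ A, IsBlock (S p) A →
      A.card ≤ k ∨ k + A.card ≤ n := by
    intro k hk p hp A hA
    obtain ⟨B, hB, hBc, hBA⟩ := hblock k hk p hp
    obtain ⟨⟨C, hAC, -⟩, -⟩ := id hA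
    rcases hBA A hA with h | h
    · left
      have h1 : A.val ≤ B := by
        rw [Multiset.le_iff_subset A.nodup]
        exact fun x hx => h x hx
      rw [← hBc]
      exact Multiset.card_le_card h1
    · right
      have h1 : B ≤ C := by
        rw [Multiset.le_iff_count]
        intro z
        have h2 := Multiset.le_iff_count.1 hB z
        rw [hAC, Multiset.count_add] at h2
        by_cases hz : z ∈ A
        · rw [Multiset.count_eq_zero_of_notMem (h z hz)]
          exact Nat.zero_le _
        · have h3 : Multiset.count z A.val = 0 := Multiset.count_eq_zero_of_notMem hz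
          omega
      have h2 := Multiset.card_le_card h1
      have h3 := hcard p hp
      rw [hAC, Multiset.card_add, Finset.card_val] at h3
      omega
  have hcrit : (∀ k, 0 < k → 2 * k ≤ n → ¬ CommonRelation T S k ∨
      ∃ p ∈ T, ∀ B ≤ S p, Multiset.card B = k →
        ∃ A, IsBlock (S p) A ∧ (∃ x ∈ A, x ∈ B) ∧ ∃ x ∈ A, x ∉ B) → Irreducible ρ := by
    intro hk
    refine ⟨hn, fun U hU => ?_⟩
    by_contra hcon
    push Not at hcon
    have h0 : 0 < finrank (PadicAlgCl ℓ) U :=
      Nat.pos_of_ne_zero fun h => hcon.1 (Submodule.finrank_eq_zero.1 h)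
    have h1 : finrank (PadicAlgCl ℓ) U < n := by
      have := Submodule.finrank_lt hcon.2
      rwa [finrank_fin_fun] at this
    have key : ∀ k, 0 < k → 2 * k ≤ n → CommonRelation T S k → False := by
      intro k hk0 hkn hrel
      rcases hk k hk0 hkn with h | ⟨p, hp, hq⟩
      · exact h hrel
      · obtain ⟨B, hB, hBc, hBA⟩ := hblock k hrel p hp
        obtain ⟨A, hA, ⟨x, hx, hxB⟩, ⟨y, hy, hyB⟩⟩ := hq B hB hBc
        rcases hBA A hA with h | h
        · exact hyB (h y hy)
        · exact h x hx hxB
    rcases le_or_gt (2 * finrank (PadicAlgCl ℓ) U) n with h | h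
    · exact key _ h0 h (hrel1 U hU)
    · exact key (n - finrank (PadicAlgCl ℓ) U) (by omega) (by omega) (hrel2 U hU)
  refine ⟨fun U hU p hp => ⟨hblock _ (hrel1 U hU) p hp, hdim _ (hrel1 U hU) p hp⟩, hcrit, ?_,
    fun A C h => isIrred_of_doublyTransitive h⟩
  rintro ⟨p, hp, A, hA, hSA⟩
  refine ⟨hn, fun U hU => ?_⟩
  have h1 := hdim _ (hrel1 U hU) p hp A hA
  have h2 := hcard p hp
  rw [hSA, Finset.card_val] at h2
  have h3 : finrank (PadicAlgCl ℓ) U ≤ n := by
    have := Submodule.finrank_le U
    rwa [finrank_fin_fun] at this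
  rcases h1 with h | h
  · right
    apply Submodule.eq_top_of_finrank_eq
    rw [finrank_fin_fun]
    omega
  · left
    apply Submodule.finrank_eq_zero.1
    omega

end Pool.Agent.Results.MP_fa5bba_nt.DoublyTransitiveHecke
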