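import Pool.Agent.K3h66.LN.Dual2
import Pool.Agent.K3h67.LN.Char
import Pool.Agent.K3h4.LN.Fr
import Pool.Agent.K3h4.LN.Chb
import Pool.Agent.K3h4.LN.Mk
import Pool.Agent.K3h51.LN.W3
import Pool.Agent.K3h51.LN.W4a
import Pool.Agent.K3h58.LN.W4b
import Pool.Agent.K3h58.LN.Quad

/-!
# Galois representations attached to cuspidal automorphic representations of `GL_n` over `ℚ` which
are not essentially self-dual

Let `π` be a cuspidal automorphic representation of `GL_n` over `ℚ` which is algebraic and not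
essentially self-dual (`π~` is not a twist of `π` by a Hecke character), normalised so that
`π ⊗ |det| ^ (w / 2)` is unitary. Let `B` be a finite set of primes containing `ℓ` and the ramified
primes of `π`, and `S p`, `p ∉ B`, the Satake parameters. What we use about `π` is

* `RankinSelberg B w S`: the prime number theorems for `L(s, π × π~)`, `L(s, π × π~ ⊗ c)` and
  `L(s, π × π ⊗ c)`, `c` a Dirichlet character (theorems of Jacquet, Piatetski-Shapiro, Shalika and
  Shahidi: these functions are holomorphic and not zero on the line `Re s = 1` except for a simple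
  pole at `1` of the first one, and of the second one if `π ⊗ c ≅ π`);
* for `n = 4` also `ExteriorSquare B w S`: the prime number theorems for `L(s, Λ²π ⊗ c)` and
  `L(s, Λ²π × Λ²π~)` (Kim: `Λ²π` is automorphic on `GL_6`, an isobaric sum of unitary cuspidal
  representations which are algebraic up to a twist);
* for three primes `p ∉ B` the Satake parameters are algebraic numbers;
* in (3) also `Weights B w S`: either `π` is tempered at one prime `p ∉ B`, or the Hecke polynomials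
  have coefficients in a number field and the bound of Jacquet and Shalika holds at one prime `p ∉ B`.
  The second alternative is a theorem for all regular `π` (Clozel; Jacquet and Shalika).

**Theorem.** Let `ρ` be any continuous `ℓ`-adic representation attached to `π` (unramified at all
primes `p ∉ B`, the eigenvalues of the geometric Frobenius elements correspond to the Satake
parameters).

(1) If `n = 3`, then `ρ` is irreducible.

(2) If `n = 4`, then `ρ` is irreducible.

(3) For every `n` there is no filtration of `ρ` by subrepresentations such that the graded pieces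
are permuted by duality up to twists by characters (`σ_j(i)` has the same characteristic polynomials
as `σ_i^∨ ⊗ θ_i`, for a permutation `j` and continuous characters `θ_i`). In particular, some
irreducible subquotient of `ρ` is not essentially self-dual, so that its dimension is at least three;
and for example `ρ` is not the sum of `σ` and a twist of `σ^∨`.

There is no assumption of regularity, purity, of Hodge-Tate type or semisimplicity, and the prime `ℓ`
is arbitrary.

The proof. By the `ℓ`-adic six exponentials theorem a continuous character of the absolute Galois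
group of `ℚ` with algebraic values at three Frobenius elements is a rational power of the cyclotomic
character up to finite order. We apply it to the determinants of the subquotients, and to the
characters `θ_i`. If the Hecke polynomials have coefficients in a number field `E` and the power is not
an integer, then for large primes `p` a Galois conjugation over `E` shows that `ζ θ_i(g)` is a product
of two eigenvalues of `ρ(g)` as well, `g` the Frobenius element, for a root of unity `ζ ≠ 1` of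
bounded order; but there are such `g` arbitrarily close to `1`. So `θ_i = p ^ w c_i(p)` with Dirichlet
characters `c_i`. At the primes `p` with `c_1(p) = c_2(p) = …` we have `|tr|² = c_1(p)⁻¹ tr²` (if
`w = 0`); these primes are detected by finitely many Dirichlet characters and the prime number
theorems give a contradiction: the mean value of the left-hand side is positive and the one of the
right-hand side is zero. For `n = 3` and `n = 4` the weights of the subquotients are determined by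
the Rankin-Selberg method (the mean values of `|tr|²` and `|tr Λ²|²` are finite). For a
one-dimensional subquotient `χ` of a four-dimensional `ρ` we use the identity `det (1 - χ⁻¹ ρ) = 0`,
that is, `1 + Λ²π χ⁻² + det π χ⁻⁴ = π χ⁻¹ + π~ (det π) χ⁻³`, where only `χ²` and not `χ` is a Dirichlet
character up to a power of the norm, so we take the mean value of the square of the absolute values.
-/

set_option autoImplicit false

namespace Pool.Agent.Results.MP_fa5bba_nt.LowRankNotSelfDual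

open Filter Topology NumberField Module Matrix

/-! ### Automorphic side -/

/-- `Q` is a prime ideal above the prime number `p` of the ring of all algebraic integers. -/
def PrimeOver (p : ℕ) (Q : Ideal (𝓞 (AlgebraicClosure ℚ))) : Prop :=
  Q.IsPrime ∧ (p : 𝓞 (AlgebraicClosure ℚ)) ∈ Q

/-- `g` is in the inertia group at `Q`. -/
def IsInertia (Q : Ideal (𝓞 (AlgebraicClosure ℚ))) (g : Gal(AlgebraicClosure ℚ/ℚ)) : Prop :=
  ∀ x : 𝓞 (AlgebraicClosure ℚ), g • x - x ∈ Q

/-- `g` is an (arithmetic) Frobenius element at the prime ideal `Q` above `p`. -/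
def IsFrobenius (p : ℕ) (Q : Ideal (𝓞 (AlgebraicClosure ℚ))) (g : Gal(AlgebraicClosure ℚ/ℚ)) :
    Prop := ∀ x : 𝓞 (AlgebraicClosure ℚ), g • x - x ^ p ∈ Q

/-- `c` is a Dirichlet character unramified outside `B`: there is a character `η` of the absolute
Galois group of `ℚ` with open kernel, unramified at all primes `p ∉ B`, and `c p = η (Frob_p)`. -/
def IsTwist (B : Finset ℕ) (c : ℕ → ℂ) : Prop :=
  ∃ η : Gal(AlgebraicClosure ℚ/ℚ) →* ℂˣ, IsOpen (η.ker : Set Gal(AlgebraicClosure ℚ/ℚ)) ∧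
    ∀ p : ℕ, p.Prime → p ∉ B → ∀ Q, PrimeOver p Q →
      (∀ g, IsInertia Q g → η g = 1) ∧ ∀ g, IsFrobenius p Q g → (η g : ℂ) = c p

/-- the sum of the `k`-th powers of the members of `S` -/
noncomputable def pw (S : Multiset ℂ) (k : ℕ) : ℂ := (S.map (fun a => a ^ k)).sum

/-- the second elementary symmetric function of the `k`-th powers of the members of `S` -/
noncomputable def el (S : Multiset ℂ) (k : ℕ) : ℂ := (pw S k ^ 2 - pw S (2 * k)) / 2

/-- the sum of `f p k / k` over the prime powers `p ^ k ≤ x`, `p ∉ B`, divided by `π(x)` -/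
noncomputable def avg (B : Finset ℕ) (f : ℕ → ℕ → ℂ) (x : ℕ) : ℂ :=
  (∑ p ∈ (Finset.range (x + 1)).filter (fun p => p.Prime ∧ p ∉ B),
    ∑ k ∈ Finset.Icc 1 (Nat.log p x), f p k / (k : ℂ)) / (Nat.primeCounting x : ℂ)

/-- `f` has the mean value `m` over the prime powers -/
def HasMean (B : Finset ℕ) (f : ℕ → ℕ → ℂ) (m : ℝ) : Prop :=
  Tendsto (avg B f) atTop (𝓝 (m : ℂ))

/-- The prime number theorems for the Rankin-Selberg `L`-functions `L(s, π × π~)`,
`L(s, π × π~ ⊗ c)` and `L(s, π × π ⊗ c)` of a cuspidal automorphic representation `π` of `GL_n`, with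
Satake parameters `p ^ (w / 2) ·`(unitary parameters)` = S p`, which is not essentially self-dual. -/
structure RankinSelberg (B : Finset ℕ) (w : ℤ) (S : ℕ → Multiset ℂ) : Prop where
  /-- `π_p ⊗ |det| ^ (w / 2)` is unitary -/
  unitary : ∀ p : ℕ, p.Prime → p ∉ B →
    (S p).map (fun a => (p : ℂ) ^ w / (starRingEnd ℂ) a) = S p
  /-- `L(s, π × π~)` has a simple pole at `1` -/
  self : HasMean B (fun p k => ((‖pw (S p) k‖ ^ 2 / (p : ℝ) ^ (w * k) : ℝ) : ℂ)) 1
  /-- the order of the pole of `L(s, π × π~ ⊗ c)` at `1` is not negative -/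
  twist : ∀ c, IsTwist B c → ∃ m : ℝ, 0 ≤ m ∧
    HasMean B (fun p k => c p ^ k * ((‖pw (S p) k‖ ^ 2 / (p : ℝ) ^ (w * k) : ℝ) : ℂ)) m
  /-- `L(s, π × π ⊗ c)` has no pole or zero at `1`, since `π` is not essentially self-dual -/
  notDual : ∀ c, IsTwist B c →
    HasMean B (fun p k => c p ^ k * (pw (S p) k ^ 2 / (p : ℂ) ^ (w * k))) 0

/-- The prime number theorems for `L(s, Λ²π ⊗ c)` and `L(s, Λ²π × Λ²π~)` (Kim, Shahidi). -/
structure ExteriorSquare (B : Finset ℕ) (w : ℤ) (S : ℕ → Multiset ℂ) : Prop where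
  /-- the order of the pole of `L(s, Λ²π ⊗ c)` at `1` is not negative -/
  twist : ∀ c, IsTwist B c → ∃ m : ℝ, 0 ≤ m ∧
    HasMean B (fun p k => c p ^ k * (el (S p) k / (p : ℂ) ^ (w * k))) m
  /-- `L(s, Λ²π × Λ²π~)` has a pole at `1` -/
  self : ∃ m : ℝ, 0 < m ∧
    HasMean B (fun p k => ((‖el (S p) k‖ ^ 2 / (p : ℝ) ^ (2 * w * k) : ℝ) : ℂ)) m

/-- Either `π` is tempered at one prime, or the Hecke polynomials have coefficients in a number
field and the bound of Jacquet and Shalika holds at one prime. -/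
def Weights (B : Finset ℕ) (w : ℤ) (S : ℕ → Multiset ℂ) : Prop :=
  (∃ p : ℕ, p.Prime ∧ p ∉ B ∧ ∀ a ∈ S p, ‖a‖ ^ 2 = (p : ℝ) ^ w) ∨
  ((∃ E : IntermediateField ℚ ℂ, FiniteDimensional ℚ E ∧ ∀ p : ℕ, p.Prime → p ∉ B →
      ∃ f : Polynomial E, (f.map (algebraMap E ℂ)).roots = S p) ∧
    ∃ p : ℕ, p.Prime ∧ p ∉ B ∧ ∀ a ∈ S p, (p : ℝ) ^ (w - 1) < ‖a‖ ^ 2 ∧ ‖a‖ ^ 2 < (p : ℝ) ^ (w + 1))

/-! ### Galois side -/

section Galois

variable {ℓ : ℕ} [hℓ : Fact ℓ.Prime] {n : ℕ}

/-- The matrix of `g`. -/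
noncomputable def mat (ρ : Gal(AlgebraicClosure ℚ/ℚ) →* GL (Fin n) (PadicAlgCl ℓ))
    (g : Gal(AlgebraicClosure ℚ/ℚ)) : Matrix (Fin n) (Fin n) (PadicAlgCl ℓ) :=
  (ρ g : GL (Fin n) (PadicAlgCl ℓ))

/-- The representation `ρ` is unramified at `p`, and the eigenvalues (with multiplicities) of every
geometric Frobenius element at `p` correspond under `ι` to the complex numbers in `S`. -/
structure AttachedAt (ρ : Gal(AlgebraicClosure ℚ/ℚ) →* GL (Fin n) (PadicAlgCl ℓ))
    (ι : PadicAlgCl ℓ →+* ℂ) (p : ℕ) (S : Multiset ℂ) : Prop where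
  unramified : ∀ Q, PrimeOver p Q → ∀ g, IsInertia Q g → ρ g = 1
  frobenius : ∀ Q, PrimeOver p Q → ∀ g, IsFrobenius p Q g → ((mat ρ g⁻¹).charpoly.map ι).roots = S

/-- `U` is a subrepresentation of `ρ`. -/
def Stable (ρ : Gal(AlgebraicClosure ℚ/ℚ) →* GL (Fin n) (PadicAlgCl ℓ))
    (U : Submodule (PadicAlgCl ℓ) (Fin n → PadicAlgCl ℓ)) : Prop := ∀ g, ∀ x ∈ U, mat ρ g *ᵥ x ∈ U

/-- `ρ` is irreducible. -/
def Irreducible (ρ : Gal(AlgebraicClosure ℚ/ℚ) →* GL (Fin n) (PadicAlgCl ℓ)) : Prop :=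
  0 < n ∧ ∀ U, Stable ρ U → U = ⊥ ∨ U = ⊤

/-- The eigenvalues (with multiplicities) of `g` on the subrepresentation `U`. -/
noncomputable def eigen (ρ : Gal(AlgebraicClosure ℚ/ℚ) →* GL (Fin n) (PadicAlgCl ℓ))
    {U : Submodule (PadicAlgCl ℓ) (Fin n → PadicAlgCl ℓ)} (hU : Stable ρ U)
    (g : Gal(AlgebraicClosure ℚ/ℚ)) : Multiset (PadicAlgCl ℓ) :=
  ((Matrix.mulVecLin (mat ρ g)).restrict (hU g)).charpoly.roots

/-- The subquotients `V / U` and `V' / U'` of `ρ` are dual to each other up to the character `θ`: for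
each `g` the family `M` of the eigenvalues of `g` on `V / U` (the eigenvalues on `V` are those on `U`
and `M`) is mapped by `a ↦ θ g / a` onto the family of the eigenvalues on `V' / U'`. That is,
`V' / U'` and `(V / U)^∨ ⊗ θ` have the same characteristic polynomials. -/
def DualTwist (ρ : Gal(AlgebraicClosure ℚ/ℚ) →* GL (Fin n) (PadicAlgCl ℓ))
    {U V U' V' : Submodule (PadicAlgCl ℓ) (Fin n → PadicAlgCl ℓ)} (hU : Stable ρ U)
    (hV : Stable ρ V) (hU' : Stable ρ U') (hV' : Stable ρ V')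
    (θ : Gal(AlgebraicClosure ℚ/ℚ) →* (PadicAlgCl ℓ)ˣ) : Prop :=
  ∀ g, ∃ M, eigen ρ hV g = eigen ρ hU g + M ∧
    eigen ρ hV' g = eigen ρ hU' g + M.map (fun a => (θ g : PadicAlgCl ℓ) / a)

/-- There is a filtration of `ρ` by subrepresentations such that its graded pieces are permuted by
duality, up to twists by continuous characters. -/
def SelfDualUpToTwists (ρ : Gal(AlgebraicClosure ℚ/ℚ) →* GL (Fin n) (PadicAlgCl ℓ)) : Prop :=
  ∃ (m : ℕ) (U : ℕ → Submodule (PadicAlgCl ℓ) (Fin n → PadicAlgCl ℓ)) (hU : ∀ i, Stable ρ (U i))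
    (σ : Equiv.Perm (Fin m)) (θ : Fin m → Gal(AlgebraicClosure ℚ/ℚ) →* (PadicAlgCl ℓ)ˣ),
    U 0 = ⊥ ∧ U m = ⊤ ∧ (∀ i, U i ≤ U (i + 1)) ∧ (∀ i, Continuous (θ i)) ∧
    ∀ i : Fin m, DualTwist ρ (hU i) (hU (i + 1)) (hU (σ i)) (hU (σ i + 1)) (θ i)

end Galois

theorem rankinSelberg {B : Finset ℕ} {w : ℤ} {S : ℕ → Multiset ℂ} (h : RankinSelberg B w S) :
    Pool.Agent.K3h66.LN.RankinSelberg B w S := ⟨h.unitary, h.self, h.twist, h.notDual⟩

theorem exteriorSquare {B : Finset ℕ} {w : ℤ} {S : ℕ → Multiset ℂ} (h : ExteriorSquare B w S) :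
    Pool.Agent.K3h66.LN.ExteriorSquare B w S := ⟨h.twist, h.self⟩

theorem att {ℓ : ℕ} [Fact ℓ.Prime] {ι : PadicAlgCl ℓ →+* ℂ} {B : Finset ℕ} (hℓ : ℓ ∈ B)
    {T : Set ℕ} (hT : 3 ≤ T.encard) (hTB : ∀ p ∈ T, p.Prime ∧ p ∉ B) {S : ℕ → Multiset ℂ}
    (halg : ∀ p ∈ T, ∀ a ∈ S p, IsAlgebraic ℚ a) {n : ℕ}
    {ρ : Gal(AlgebraicClosure ℚ/ℚ) →* GL (Fin n) (PadicAlgCl ℓ)} (hρ : Continuous ρ)
    (h : ∀ p : ℕ, p.Prime → p ∉ B → AttachedAt ρ ι p (S p)) :
    Pool.Agent.K3h66.LN.Att ρ ι B T S :=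
  ⟨hρ, hℓ, hT, hTB, halg, fun p hp hpB => ⟨(h p hp hpB).unramified, (h p hp hpB).frobenius⟩⟩

/-- **Main result.** -/
theorem result (ℓ : ℕ) [Fact ℓ.Prime] (ι : PadicAlgCl ℓ →+* ℂ) (B : Finset ℕ) (hℓ : ℓ ∈ B)
    (T : Set ℕ) (hT : 3 ≤ T.encard) (hTB : ∀ p ∈ T, p.Prime ∧ p ∉ B) (w : ℤ) (S : ℕ → Multiset ℂ)
    (halg : ∀ p ∈ T, ∀ a ∈ S p, IsAlgebraic ℚ a) (hRS : RankinSelberg B w S) :
    (∀ ρ : Gal(AlgebraicClosure ℚ/ℚ) →* GL (Fin 3) (PadicAlgCl ℓ), Continuous ρ →
      (∀ p : ℕ, p.Prime → p ∉ B → AttachedAt ρ ι p (S p)) → Irreducible ρ) ∧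
    (∀ ρ : Gal(AlgebraicClosure ℚ/ℚ) →* GL (Fin 4) (PadicAlgCl ℓ), Continuous ρ →
      (∀ p : ℕ, p.Prime → p ∉ B → AttachedAt ρ ι p (S p)) → ExteriorSquare B w S →
      Irreducible ρ) ∧
    (∀ (n : ℕ) (ρ : Gal(AlgebraicClosure ℚ/ℚ) →* GL (Fin n) (PadicAlgCl ℓ)), Continuous ρ →
      (∀ p : ℕ, p.Prime → p ∉ B → AttachedAt ρ ι p (S p)) → Weights B w S →
      ¬ SelfDualUpToTwists ρ ∧
      ∃ (U V : Submodule (PadicAlgCl ℓ) (Fin n → PadicAlgCl ℓ)) (hU : Stable ρ U)
        (hV : Stable ρ V), U ≤ V ∧ finrank (PadicAlgCl ℓ) U + 3 ≤ finrank (PadicAlgCl ℓ) V ∧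
        (∀ W, Stable ρ W → U ≤ W → W ≤ V → W = U ∨ W = V) ∧
        ∀ θ : Gal(AlgebraicClosure ℚ/ℚ) →* (PadicAlgCl ℓ)ˣ, Continuous θ →
          ¬ DualTwist ρ hU hV hU hV θ) := by
  have hTW := Pool.Agent.K3h4.LN.t_TW
  have hchar := Pool.Agent.K3h67.LN.t_CHAR Pool.Agent.K3h4.LN.t_FR
  have hM := Pool.Agent.K3h4.LN.t_MARKOV
  have hmean := Pool.Agent.K3h67.LN.t_MEAN hTW
  have hRS' := rankinSelberg hRS
  refine ⟨fun ρ hρ h => ?_, fun ρ hρ h hES => ?_, fun n ρ hρ h hW => ?_⟩
  · exact Pool.Agent.K3h66.LN.three hchar hmean (Pool.Agent.K3h51.LN.t_W3 hM) (hTW B).1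
      (att hℓ hT hTB halg hρ h) hRS'
  · exact Pool.Agent.K3h66.LN.four hchar hmean
      (Pool.Agent.K3h58.LN.t_QUAD hTW (Pool.Agent.K3h4.LN.t_CHB Pool.Agent.K3h4.LN.t_FR))
      (Pool.Agent.K3h51.LN.t_W4A hM) (Pool.Agent.K3h58.LN.t_W4B hM) (hTW B).1
      (att hℓ hT hTB halg hρ h) hRS' (exteriorSquare hES)
  · have hno : ¬ SelfDualUpToTwists ρ :=
      Pool.Agent.K3h66.LN.no_dual_filtration hchar hTW (att hℓ hT hTB halg hρ h) hRS' hW
    exact ⟨hno, Pool.Agent.K3h66.LN.exists_constituent ι hρ hno⟩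

end Pool.Agent.Results.MP_fa5bba_nt.LowRankNotSelfDual
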