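import Pool.Agent.K3h32.RS.Count
import Pool.Agent.Y405.ZO.Frob
import Pool.Agent.Y484.ZI.IntRes
import Pool.Agent.Y726.ZI.Cheb
import Pool.Agent.Y681.ZI.Dens
import Pool.Agent.Y537.ZI.Multi
import Pool.Agent.Y614.ZD.Badd
import Pool.Agent.Y100.ZD.Sub
import Pool.Agent.Y255.SS.LF
import Pool.Agent.Y297.SS.CF
import Pool.Agent.Y708.SS.Loc
import Pool.Agent.Y936.SS.Logr
import Pool.Agent.Y518.SS.Krs
import Pool.Agent.Y737.SS.Chara
import Pool.Agent.Y932.SI.Subf
import Pool.Agent.Y421.SI.EF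
import Pool.Agent.Y641.SI.Trd
import Pool.Agent.Y949.SI.Ende

/-!
# Irreducibility of Rankin-Selberg products of symmetric powers at 100 percent of the primes `ℓ`

Let `π_1, ..., π_r` be polarized algebraic cuspidal automorphic representations of `GL_{n_i}` over a number
field `K` (for example over `ℚ`; essentially self-dual, or conjugate self-dual with complex
coefficients) whose Hecke polynomials have coefficients in the number field `E_i`, Galois over `ℚ`, and to
which `λ`-adic representations `V_{i,λ}` over the completions of `E_i` are attached. For a prime number `ℓ` the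
sum `V_{i,ℓ}` of the `V_{i,λ}`, `λ` above `ℓ`, is a representation over `ℚ_ℓ` of dimension `N_i = n_i [E_i : ℚ]` with
an action of `E_i`, and its Frobenius polynomials `P_{i,v}` are the norms of the Hecke polynomials; over the
algebraic closure of `ℚ_ℓ` it is the direct sum of its parts `V_{i,φ}`, `φ` in the set of embeddings of `E_i` in
the algebraic closure of `ℚ_ℓ`, the representations attached to the conjugates of `π_i`. The polarization gives
a form `J_{i,ℓ}`, symmetric or alternating, whose adjoint involution on `E_i` is `bar_i`. (More generally the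
theorem is about representations of a compact group `Γ` with a homomorphism from the Galois group.) There
are three types:
* symplectic: `bar_i = 1`, `J_i` is alternating;
* orthogonal: `bar_i = 1`, `J_i` is symmetric;
* unitary: `bar_i ≠ 1`; here `V_{i, φ bar_i}` is the dual of `V_{i,φ}` up to a twist.

**Theorem.** Suppose that
(1) for some place `w_0` of good reduction the roots of each `P_{i,w_0}` are simple, and for
roots `x ≠ y` of `P_{i,w_0}` and roots `z`, `u` of `P_{j,w_0}`, `x / y = z / u` only if `i = j` and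
`(z, u) = (x, y)` or `(z, u) = (q_i / y, q_i / x)`;
(2) for every `i`, `u_0, ..., u_m` are places of good reduction such that the roots of `P_{i,u}` are simple
and no quotient of two different roots is a root of unity, `F` is the intersection of the splitting fields of
these polynomials, and for every automorphism `g` of the algebraic closure of `ℚ`, of order `f` on `E_i`,
* for every `d < n_i [E_i : ℚ]`, `d > 0`, which is not divisible by `n_i f`, there are a place `v` of this type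
and an automorphism `w` which agrees with `g` on `F` such that no set of `d` roots of `P_{i,v}` is stable
under `w`;
* there are a place `v` of this type and an automorphism `w` which agrees with `g` on `F` such that `w ^ f`
has a fixed point in every nonempty set of roots of `P_{i,v}` which is stable under `w` and whose number
of elements is divisible by `n_i f`.
Then for all prime numbers `ℓ` outside of a set of natural density zero ALL Rankin-Selberg products of
symmetric powers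
`⊗_{i, φ} Sym ^ {k(i, φ)} (V_{i,φ})`
are irreducible, also after restriction to any open subgroup (to any finite extension of `K`), for
all systems of exponents `k(i, φ)` (for all embeddings `φ` of all `E_i`) such that
* `k(i, φ) ≤ 1` if the `i`-th representation is of orthogonal type,
* `k(i, φ) = 0` or `k(i, φ bar_i) = 0` if the `i`-th representation is of unitary type.
There is one set of exceptional primes `ℓ` for all `k`. The conditions on `k` are necessary in general: the
symmetric square of an orthogonal representation and the tensor product of a representation with its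
dual are reducible (up to trivial cases).

So this is Question 1, at 100 percent of the primes, for all `π_i` and their conjugates themselves and for all
automorphic representations whose Frobenius conjugacy classes are those of `⊠ Sym ^ {k(i, φ)} (φ π_i)`
(the functorial lifts, many of which are known to exist: for instance all symmetric powers
of holomorphic modular forms, the tensor products for `GL_2 × GL_2` and `GL_2 × GL_3`). There are only
conditions on finitely many Hecke polynomials of the `π_i`, and none on those of the lift, whose eigenvalues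
satisfy many multiplicative relations: the criteria for one representation with conditions on its own
Frobenius polynomials (as in the starting results for this problem) are not made for the lifts. Nothing is
assumed about the `V_{i,λ}` at single primes, neither semisimplicity nor irreducibility, nor anything
about homomorphisms between the `V_{i,φ}` for different `i`.

In the formal statement the symmetric powers are realized as spaces of polynomials: the polynomial functions
on the direct sum of the `V_{i,ℓ}`, over the algebraic closure of `ℚ_ℓ`, are the symmetric algebra of the dual, and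
`symProduct` is the span of the products `∏ L_{i,φ} ^ {k(i,φ)}` of powers of linear forms `L_{i,φ}` on `V_{i,φ}`,
the tensor product of the symmetric powers of the duals of the `V_{i,φ}` (the dual of `V_{i,φ}` is a twist
of `V_{i, φ bar_i}`).

Idea of the proof. By the theorem on endomorphisms of motives at 100 percent of the primes (starting
repository) the commutant of every open subgroup on `V_{i,ℓ}` is `E_i ⊗ ℚ_ℓ` and the representation is
semisimple, and (1) shows, with arguments of Goursat and Ribet for the Lie algebras and the double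
commutant theorem, that the Lie algebra of the image on the direct sum contains the product of the
symplectic, orthogonal and special unitary Lie algebras of the summands (as in `ProductsDensityOne` in the
folder of MP_3703a7_ag). A subspace `W` of the polynomials which is stable under an open subgroup is therefore
stable under the derivations of these Lie algebras, also over the algebraic closure of `ℚ_ℓ`. If `u` is a
vector and `y` a linear form on `V_{i,φ}` such that `u ⊗ y` is a root vector (long roots of the symplectic, all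
roots of the linear Lie algebra), then the `k`-th divided power of its derivation is the substitution
of `y(v) u` for the component at `(i, φ)`, for polynomials of degree `k` in this component. The
compositions of these substitutions give all pairs `u`, `y`; for orthogonal types one uses the double
commutant theorem again. Doing this for all components one finds that `W` contains with `f` the
product `f(u) ∏ y_{i,φ} ^ {k(i,φ)}` for all `y`, so that `W` is everything if it is not zero.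
-/

set_option autoImplicit false

namespace Pool.Agent.Results.MP_fa5bba_nt.RankinSelbergPowers

open Matrix Polynomial Filter Topology NumberField IsDedekindDomain

/-- the absolute Galois group of `K`, with its profinite (Krull) topology -/
abbrev AbsoluteGaloisGroup (K : Type) [Field K] : Type := Gal(AlgebraicClosure K/K)

/-- `σ` is an (arithmetic) Frobenius element at the prime `v` of the number field `K`: for some prime
`Q` of the algebraic closure above `v` it acts on the residue field as `x ↦ x ^ N(v)` -/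
def IsFrobenius {K : Type} [Field K] [NumberField K] (v : HeightOneSpectrum (𝓞 K))
    (σ : AbsoluteGaloisGroup K) : Prop :=
  ∃ Q : Ideal (𝓞 (AlgebraicClosure K)), Q.IsMaximal ∧
    Q.comap (algebraMap (𝓞 K) (𝓞 (AlgebraicClosure K))) = v.asIdeal ∧
    ∀ x : 𝓞 (AlgebraicClosure K), σ • x - x ^ Ideal.absNorm v.asIdeal ∈ Q

/-- `ρ` is a continuous representation of `Γ` on `ℚ_ℓ ^ N` by similitudes of the nondegenerate symmetric
or alternating form with the matrix `J`; for all `v ∉ S` which are prime to `ℓ` the characteristic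
polynomial of (the image under `s` of) the geometric Frobenius elements `σ⁻¹` (`σ` arithmetic) at `v`
is `P v`, and their multiplier is `q v` -/
def IsPolarizedSystem (K : Type) [Field K] [NumberField K] {Γ : Type} [Group Γ] [TopologicalSpace Γ]
    (s : AbsoluteGaloisGroup K →* Γ) (N ℓ : ℕ) [Fact ℓ.Prime]
    (ρ : Γ →* Matrix (Fin N) (Fin N) ℚ_[ℓ]) (J : Matrix (Fin N) (Fin N) ℚ_[ℓ])
    (S : Set (HeightOneSpectrum (𝓞 K))) (P : HeightOneSpectrum (𝓞 K) → ℚ[X])
    (q : HeightOneSpectrum (𝓞 K) → ℚ) : Prop :=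
  Continuous ρ ∧ (Jᵀ = J ∨ Jᵀ = -J) ∧ J.det ≠ 0 ∧
    (∀ γ, ∃ c : ℚ_[ℓ], (ρ γ)ᵀ * J * ρ γ = c • J) ∧
    ∀ v ∉ S, (ℓ : 𝓞 K) ∉ v.asIdeal → ∀ σ : AbsoluteGaloisGroup K, IsFrobenius v σ →
      (ρ (s σ⁻¹)).charpoly = (P v).map (algebraMap ℚ ℚ_[ℓ]) ∧
        (ρ (s σ⁻¹))ᵀ * J * ρ (s σ⁻¹) = (q v : ℚ_[ℓ]) • J

/-- the roots of `P v` are simple, and different roots have different `n`-th powers for all `n > 0` -/
def IsRegularPlace {K : Type} [Field K] [NumberField K]
    (S : Set (HeightOneSpectrum (𝓞 K))) (P : HeightOneSpectrum (𝓞 K) → ℚ[X])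
    (v : HeightOneSpectrum (𝓞 K)) : Prop :=
  v ∉ S ∧ (P v).Separable ∧ ∀ n : ℕ, 0 < n → ∀ x y : ℂ,
    aeval x (P v) = 0 → aeval y (P v) = 0 → x ^ n = y ^ n → x = y

/-- the roots of each `P i v` are simple; for roots `x ≠ y` of `P i v` and roots
`z`, `u` of `P j v` one has `x / y = z / u` only if `i = j` and `(z, u) = (x, y)` or
`(z, u) = (q / y, q / x)`, `q` the multiplier of the `i`-th summand -/
def IsGenericPlace {K : Type} [Field K] [NumberField K] {r : ℕ}
    (S : Set (HeightOneSpectrum (𝓞 K))) (P : Fin r → HeightOneSpectrum (𝓞 K) → ℚ[X])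
    (q : Fin r → HeightOneSpectrum (𝓞 K) → ℚ) (v : HeightOneSpectrum (𝓞 K)) : Prop :=
  v ∉ S ∧ (∀ i, (P i v).Separable) ∧ ∀ (i j : Fin r) (x y z u : ℂ), aeval x (P i v) = 0 →
    aeval y (P i v) = 0 → aeval z (P j v) = 0 → aeval u (P j v) = 0 → x ≠ y → x * u = z * y →
    i = j ∧ ((z = x ∧ u = y) ∨ (z * y = (q i v : ℂ) ∧ u * x = (q i v : ℂ)))

/-- the splitting field of `Q` in the algebraic closure of `ℚ` -/
noncomputable def splittingField (Q : ℚ[X]) : Set (AlgebraicClosure ℚ) :=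
  (IntermediateField.adjoin ℚ {x : AlgebraicClosure ℚ | aeval x Q = 0} :
    IntermediateField ℚ (AlgebraicClosure ℚ))

/-- the order of the restriction of `g` to the (finite, normal) field `E` -/
noncomputable def orderOn (E : IntermediateField ℚ (AlgebraicClosure ℚ))
    (g : AbsoluteGaloisGroup ℚ) : ℕ :=
  sInf {k : ℕ | 0 < k ∧ ∀ a ∈ E, (g ^ k) a = a}

/-- `T` is a set of roots of `Q` which is stable under `w` -/
def IsStableSet (w : AbsoluteGaloisGroup ℚ) (Q : ℚ[X]) (T : Set (AlgebraicClosure ℚ)) : Prop :=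
  (∀ x ∈ T, aeval x Q = 0) ∧ ∀ x ∈ T, w x ∈ T

/-- the polynomials in the coordinates of the spaces `Ω ^ (N i)`, for all `i`, over the algebraic closure
`Ω` of `ℚ_ℓ` -/
abbrev Poly (ℓ : ℕ) [Fact ℓ.Prime] {r : ℕ} (N : Fin r → ℕ) : Type :=
  MvPolynomial ((i : Fin r) × Fin (N i)) (AlgebraicClosure ℚ_[ℓ])

/-- the linear form with the coefficients `c` in the coordinates of `Ω ^ (N i)` -/
noncomputable def linForm {ℓ : ℕ} [Fact ℓ.Prime] {r : ℕ} {N : Fin r → ℕ} (i : Fin r)
    (c : Fin (N i) → AlgebraicClosure ℚ_[ℓ]) : Poly ℓ N :=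
  ∑ a, MvPolynomial.C (c a) * MvPolynomial.X ⟨i, a⟩

/-- the substitution `f ↦ f ∘ ρ γ` -/
noncomputable def act {Γ : Type} [Group Γ] {ℓ : ℕ} [Fact ℓ.Prime] {r : ℕ} {N : Fin r → ℕ}
    (ρ : ∀ i, Γ →* Matrix (Fin (N i)) (Fin (N i)) ℚ_[ℓ]) (γ : Γ) :
    Poly ℓ N →ₐ[AlgebraicClosure ℚ_[ℓ]] Poly ℓ N :=
  MvPolynomial.bind₁ fun x =>
    linForm x.1 fun b => algebraMap ℚ_[ℓ] (AlgebraicClosure ℚ_[ℓ]) (ρ x.1 γ x.2 b)

/-- the tensor product of the symmetric powers of degree `k i φ` of (the dual of) the part of `Ω ^ (N i)`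
on which `E i` acts by the embedding `φ`: the span of the products of the `k i φ`-th powers of linear forms
`L i φ` such that `L i φ (ε i a v) = φ a * L i φ v` for all `a` in `E i` -/
noncomputable def symProduct {ℓ : ℕ} [Fact ℓ.Prime] {r : ℕ} {N : Fin r → ℕ}
    {E : Fin r → IntermediateField ℚ (AlgebraicClosure ℚ)} [∀ i, FiniteDimensional ℚ (E i)]
    (ε : ∀ i, E i →+* Matrix (Fin (N i)) (Fin (N i)) ℚ_[ℓ])
    (k : ∀ i, (E i →ₐ[ℚ] AlgebraicClosure ℚ_[ℓ]) → ℕ) :
    Submodule (AlgebraicClosure ℚ_[ℓ]) (Poly ℓ N) :=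
  Submodule.span (AlgebraicClosure ℚ_[ℓ])
    {f | ∃ c : ∀ i, (E i →ₐ[ℚ] AlgebraicClosure ℚ_[ℓ]) → Fin (N i) → AlgebraicClosure ℚ_[ℓ],
      (∀ i φ a, c i φ ᵥ* (ε i a).map (algebraMap ℚ_[ℓ] (AlgebraicClosure ℚ_[ℓ])) =
        φ a • c i φ) ∧ f = ∏ i, ∏ φ, linForm i (c i φ) ^ k i φ}

/-- `V` is stable under `Γ`, not zero, and irreducible for all open subgroups of `Γ` -/
def IsStronglyIrreducible {Γ : Type} [Group Γ] [TopologicalSpace Γ] {ℓ : ℕ} [Fact ℓ.Prime] {r : ℕ}
    {N : Fin r → ℕ} (ρ : ∀ i, Γ →* Matrix (Fin (N i)) (Fin (N i)) ℚ_[ℓ])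
    (V : Submodule (AlgebraicClosure ℚ_[ℓ]) (Poly ℓ N)) : Prop :=
  (∀ γ : Γ, ∀ f ∈ V, act ρ γ f ∈ V) ∧ V ≠ ⊥ ∧
    ∀ U : Subgroup Γ, IsOpen (U : Set Γ) → ∀ W : Submodule (AlgebraicClosure ℚ_[ℓ]) (Poly ℓ N),
      W ≤ V → (∀ γ ∈ U, ∀ f ∈ W, act ρ γ f ∈ W) → W = ⊥ ∨ W = V

/-- the set `A` of prime numbers has natural density zero -/
def HasDensityZero (A : Set ℕ) : Prop :=
  Tendsto (fun n : ℕ => (Nat.card {ℓ : ℕ // ℓ ≤ n ∧ ℓ ∈ A} : ℝ) / (Nat.primeCounting n : ℝ))
    atTop (𝓝 0)

theorem linForm_eq {ℓ : ℕ} [Fact ℓ.Prime] {r : ℕ} {N : Fin r → ℕ} (i : Fin r)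
    (c : Fin (N i) → AlgebraicClosure ℚ_[ℓ]) : linForm i c = K3h32.RS.lf (K3h32.RS.ext i c) := by
  unfold linForm K3h32.RS.lf
  rw [Fintype.sum_sigma, Finset.sum_eq_single i]
  · refine Finset.sum_congr rfl fun a _ => ?_
    have h1 : K3h32.RS.ext i c ⟨i, a⟩ = c a := congrFun (K3h32.RS.res_ext i c) a
    rw [h1]
  · intro j _ hj
    refine Finset.sum_eq_zero fun b _ => ?_
    have h1 : K3h32.RS.ext i c ⟨j, b⟩ = 0 := congrFun (K3h32.RS.res_ext_ne hj c) b
    rw [h1, map_zero, zero_mul]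
  · intro h
    exact absurd (Finset.mem_univ _) h

theorem act_eq {Γ : Type} [Group Γ] {ℓ : ℕ} [Fact ℓ.Prime] {r : ℕ} {N : Fin r → ℕ}
    (ρ : ∀ i, Γ →* Matrix (Fin (N i)) (Fin (N i)) ℚ_[ℓ]) (γ : Γ) :
    act ρ γ = K3h32.RS.sbt (K3h32.RS.actM ρ (AlgebraicClosure ℚ_[ℓ]) γ) := by
  refine MvPolynomial.algHom_ext fun x => ?_
  rw [K3h32.RS.sbt_X]
  unfold act
  rw [MvPolynomial.bind₁_X_right, linForm_eq]
  congr 1
  funext y
  obtain ⟨i, a⟩ := x
  obtain ⟨j, b⟩ := y
  unfold K3h32.RS.actM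
  rw [Matrix.map_apply]
  by_cases h : j = i
  · subst h
    rw [blockDiagonal'_apply_eq]
    exact congrFun (K3h32.RS.res_ext j _) b
  · rw [blockDiagonal'_apply_ne _ _ _ (Ne.symm h), map_zero]
    exact congrFun (K3h32.RS.res_ext_ne h _) b

theorem symProduct_eq {ℓ : ℕ} [Fact ℓ.Prime] {r : ℕ} {N : Fin r → ℕ}
    {E : Fin r → IntermediateField ℚ (AlgebraicClosure ℚ)} [∀ i, FiniteDimensional ℚ (E i)]
    (ε : ∀ i, E i →+* Matrix (Fin (N i)) (Fin (N i)) ℚ_[ℓ])
    (k : ∀ i, (E i →ₐ[ℚ] AlgebraicClosure ℚ_[ℓ]) → ℕ) :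
    symProduct ε k = K3h32.RS.RSk ε k := by
  unfold symProduct K3h32.RS.RSk
  congr 1
  ext f
  constructor
  · rintro ⟨c, hc, rfl⟩
    refine ⟨c, hc, ?_⟩
    exact Finset.prod_congr rfl fun i _ => Finset.prod_congr rfl fun φ _ => by rw [linForm_eq]
  · rintro ⟨c, hc, rfl⟩
    refine ⟨c, hc, ?_⟩
    exact Finset.prod_congr rfl fun i _ => Finset.prod_congr rfl fun φ _ => by rw [linForm_eq]

/-- **Irreducibility of Rankin-Selberg products of symmetric powers at 100 percent of the primes.** -/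
theorem result (K : Type) [Field K] [NumberField K] (Γ : Type) [Group Γ] [TopologicalSpace Γ]
    [IsTopologicalGroup Γ] [CompactSpace Γ] (s : AbsoluteGaloisGroup K →* Γ) (hs : Continuous s)
    (S : Set (HeightOneSpectrum (𝓞 K))) (hS : S.Finite) (r : ℕ) (hr : 0 < r) (N : Fin r → ℕ)
    (P : Fin r → HeightOneSpectrum (𝓞 K) → ℚ[X]) (q : Fin r → HeightOneSpectrum (𝓞 K) → ℚ)
    (ρ : ∀ (i : Fin r) (ℓ : ℕ) [Fact ℓ.Prime], Γ →* Matrix (Fin (N i)) (Fin (N i)) ℚ_[ℓ])
    (J : ∀ (i : Fin r) (ℓ : ℕ) [Fact ℓ.Prime], Matrix (Fin (N i)) (Fin (N i)) ℚ_[ℓ])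
    (hρ : ∀ (i : Fin r) (ℓ : ℕ) [Fact ℓ.Prime],
      IsPolarizedSystem K s (N i) ℓ (ρ i ℓ) (J i ℓ) S (P i) (q i))
    -- the coefficients
    (E : Fin r → IntermediateField ℚ (AlgebraicClosure ℚ)) [∀ i, FiniteDimensional ℚ (E i)]
    [∀ i, Normal ℚ (E i)] (n : Fin r → ℕ) (hn : ∀ i, 0 < n i)
    (hN : ∀ i, N i = n i * Module.finrank ℚ (E i))
    (ε : ∀ (i : Fin r) (ℓ : ℕ) [Fact ℓ.Prime], E i →+* Matrix (Fin (N i)) (Fin (N i)) ℚ_[ℓ])
    (hε : ∀ (i : Fin r) (ℓ : ℕ) [Fact ℓ.Prime] (a : E i) (γ : Γ),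
      ε i ℓ a * ρ i ℓ γ = ρ i ℓ γ * ε i ℓ a)
    (htr : ∀ (i : Fin r) (ℓ : ℕ) [Fact ℓ.Prime] (a : E i),
      (ε i ℓ a).trace = (n i : ℚ_[ℓ]) * ((Algebra.trace ℚ (E i) a : ℚ) : ℚ_[ℓ]))
    (bar : ∀ i, E i ≃ₐ[ℚ] E i)
    (hεJ : ∀ (i : Fin r) (ℓ : ℕ) [Fact ℓ.Prime] (a : E i),
      (ε i ℓ a)ᵀ * J i ℓ = J i ℓ * ε i ℓ (bar i a))
    -- the places
    (w₀ : HeightOneSpectrum (𝓞 K)) (hw₀ : IsGenericPlace S P q w₀)
    (m : Fin r → ℕ) (u : ∀ i, Fin (m i + 1) → HeightOneSpectrum (𝓞 K))
    (hu : ∀ i j, IsRegularPlace S (P i) (u i j))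
    (h1 : ∀ (i : Fin r) (g : AbsoluteGaloisGroup ℚ) (d : ℕ), 0 < d → d < N i →
      ¬ n i * orderOn (E i) g ∣ d →
      ∃ (v : HeightOneSpectrum (𝓞 K)) (w : AbsoluteGaloisGroup ℚ), IsRegularPlace S (P i) v ∧
        (∀ x, (∀ j, x ∈ splittingField (P i (u i j))) → w x = g x) ∧
        ∀ T, IsStableSet w (P i v) T → T.ncard ≠ d)
    (h2 : ∀ (i : Fin r) (g : AbsoluteGaloisGroup ℚ),
      ∃ (v : HeightOneSpectrum (𝓞 K)) (w : AbsoluteGaloisGroup ℚ), IsRegularPlace S (P i) v ∧
        (∀ x, (∀ j, x ∈ splittingField (P i (u i j))) → w x = g x) ∧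
        ∀ T, IsStableSet w (P i v) T → T.Nonempty → n i * orderOn (E i) w ∣ T.ncard →
          ∃ x ∈ T, (w ^ orderOn (E i) w) x = x) :
    HasDensityZero {ℓ | ∃ _ : Fact ℓ.Prime,
      ∃ k : ∀ i, (E i →ₐ[ℚ] AlgebraicClosure ℚ_[ℓ]) → ℕ,
      (∀ i, bar i = 1 → (J i ℓ)ᵀ = -J i ℓ ∨ ∀ φ, k i φ ≤ 1) ∧
      (∀ i, bar i ≠ 1 → ∀ φ, k i φ = 0 ∨ k i (φ.comp (bar i : E i →ₐ[ℚ] E i)) = 0) ∧
      ¬ IsStronglyIrreducible (fun i => ρ i ℓ) (symProduct (fun i => ε i ℓ) k)} := by
  -- the tasks
  have hFROB : Y142.ZO.S_FROB := Y405.ZO.t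
  have hINT : Y142.ZI.S_INT := Y484.ZI.t1
  have hCHEB : Y142.ZI.S_CHEB := Y726.ZI.t1
  have hDENS2 : Y142.ZI.S_DENS2 := Y681.ZI.t hCHEB
  have hMULTI : Y142.ZI.S_MULTI := Y537.ZI.t
  have hLF : Y142.SS.S_LF := Y255.SS.t
  have hCF : Y142.SS.S_CF := Y297.SS.t hLF
  have hLOC : Y142.SS.S_LOC := Y708.SS.Loc.t hCF
  have hLOGR : Y142.SS.S_LOGR := Y936.SS.t
  have hKRS : Y142.SS.S_KRS := Y518.SS.t
  have hCHARA : Y142.SS.S_CHARA := Y737.SS.Chara.t
  have hBADD : Y142.ZD.S_BADD := Y614.ZD.t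
  have hSUB : Y142.ZD.S_SUB := Y100.ZD.t
  have hSUBF : Y142.SI.S_SUBF := Y932.SI.Subf.t hLF hCF
  have hEF : Y142.SI.S_EF := Y421.SI.EF.t hLOC
  have hTRD : Y142.SI.S_TRD := Y641.SI.t
  have hENDE : Y142.SI.S_ENDE := Y949.SI.t
  have hgs : ∀ (i : Fin r) (ℓ : ℕ) [Fact ℓ.Prime], Y142.SI.GenSys K s (N i) ℓ (ρ i ℓ) S (P i) :=
    fun i ℓ _ => ⟨(hρ i ℓ).1, fun v hv hvℓ σ hσ => ((hρ i ℓ).2.2.2.2 v hv hvℓ σ hσ).1⟩
  have hfs : ∀ (i : Fin r) (ℓ : ℕ) [Fact ℓ.Prime],
      Y142.SU.FormSys K s (N i) ℓ (ρ i ℓ) (J i ℓ) S (q i) := fun i ℓ _ =>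
    ⟨(hρ i ℓ).2.1, (hρ i ℓ).2.2.1, (hρ i ℓ).2.2.2.1,
      fun v hv hvℓ σ hσ => ((hρ i ℓ).2.2.2.2 v hv hvℓ σ hσ).2⟩
  have hsys' : ∀ (i : Fin r) (ℓ : ℕ) [Fact ℓ.Prime],
      Y142.SS.Sys K (N i) ℓ ((ρ i ℓ).comp s) S (P i) := fun i ℓ _ =>
    ⟨(hgs i ℓ).1.comp hs, fun v hv hvℓ σ hσ => (hgs i ℓ).2 v hv hvℓ σ hσ⟩
  have hnice : ∀ i v, IsRegularPlace S (P i) v → Y142.ZS.NiceP S (P i) v := fun i v hv =>
    Y142.SS.nice_of_complexA (fun ℓ _ => (ρ i ℓ).comp s) (fun ℓ _ => hsys' i ℓ) hv.1 hv.2.1 hv.2.2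
  have hLf : ∀ (i : Fin r) (j : Fin (m i + 1)) (x : AlgebraicClosure ℚ),
      x ∈ Y142.ZI.Lf (P i (u i j)) → x ∈ splittingField (P i (u i j)) := by
    intro i j x hx
    have h2 : (P i (u i j)).rootSet (AlgebraicClosure ℚ) =
        {x : AlgebraicClosure ℚ | aeval x (P i (u i j)) = 0} := by
      ext y
      exact mem_rootSet_of_ne (hu i j).2.1.ne_zero
    unfold Y142.ZI.Lf at hx
    rw [h2] at hx
    exact hx
  have hA : ∀ (i : Fin r) (g w : AbsoluteGaloisGroup ℚ),
      (∀ x, (∀ j, x ∈ splittingField (P i (u i j))) → w x = g x) →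
      w⁻¹ * g ∈ Subgroup.closure (⋃ j, Y142.SS.Fix (P i (u i j))) := by
    intro i g w hw
    refine Y142.SS.field_mem _ (fun j => (hu i j).2.1.ne_zero) fun x hx => ?_
    rw [AlgEquiv.mul_apply, ← hw x fun j => hLf i j x (hx j), ← AlgEquiv.mul_apply, inv_mul_cancel,
      AlgEquiv.one_apply]
  have hmain := K3h32.RS.densityRS hLOC hLOGR hKRS hCHARA hMULTI hFROB hINT hDENS2 hBADD hSUB
    hSUBF hEF hTRD hENDE hS s hs hr ρ hgs E n hn hN ε hε htr J hfs bar hεJ hw₀.1 hw₀.2.1
    (fun i x y z u hx hy hz hu hxy hxu => (hw₀.2.2 i i x y z u hx hy hz hu hxy hxu).2)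
    (fun i j hij x y z u hx hy hz hu hxy hxu =>
      hij (hw₀.2.2 i j x y z u hx hy hz hu hxy hxu).1)
    m u (fun i j => hnice i _ (hu i j))
    (by
      intro i g d hd hdN hnd
      obtain ⟨v, w, hv, hw, hT⟩ := h1 i g d hd hdN hnd
      exact ⟨v, hnice i v hv, w, fun T hT1 hT2 => hT T ⟨hT1, hT2⟩, hA i g w hw⟩)
    (by
      intro i g
      obtain ⟨v, w, hv, hw, hT⟩ := h2 i g
      exact ⟨v, hnice i v hv, w, fun T hT1 hne hT2 hd => hT T ⟨hT1, hT2⟩ hne hd, hA i g w hw⟩)
  refine Y142.ZI.DensityZero.mono hmain ?_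
  rintro ℓ ⟨hp, k, hk1, hk2, hno⟩
  refine ⟨hp, k, fun i hi => (hk1 i hi).symm, hk2, fun hcon => hno ⟨fun γ f hf => ?_, ?_, ?_⟩⟩
  · unfold symProduct at hf ⊢
    induction hf using Submodule.span_induction with
    | mem f hf =>
      obtain ⟨c, hc, rfl⟩ := hf
      refine Submodule.subset_span ⟨fun i φ =>
        c i φ ᵥ* (ρ i ℓ γ).map (algebraMap ℚ_[ℓ] (AlgebraicClosure ℚ_[ℓ])), fun i φ a => ?_, ?_⟩
      · have h3 : (ρ i ℓ γ).map (algebraMap ℚ_[ℓ] (AlgebraicClosure ℚ_[ℓ])) *
            (ε i ℓ a).map (algebraMap ℚ_[ℓ] (AlgebraicClosure ℚ_[ℓ])) =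
            (ε i ℓ a).map (algebraMap ℚ_[ℓ] (AlgebraicClosure ℚ_[ℓ])) *
            (ρ i ℓ γ).map (algebraMap ℚ_[ℓ] (AlgebraicClosure ℚ_[ℓ])) := by
          rw [← Matrix.map_mul, ← Matrix.map_mul, hε]
        rw [vecMul_vecMul, h3, ← vecMul_vecMul, hc, smul_vecMul]
      · rw [act_eq, map_prod]
        refine Finset.prod_congr rfl fun i _ => ?_
        rw [map_prod]
        refine Finset.prod_congr rfl fun φ _ => ?_
        rw [map_pow, linForm_eq, linForm_eq, K3h32.RS.sbt_lf]
        congr 2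
        apply K3h32.RS.eq_of_res
        intro j
        have h4 : K3h32.RS.actM (fun i => ρ i ℓ) (AlgebraicClosure ℚ_[ℓ]) γ =
            blockDiagonal' fun i => (ρ i ℓ γ).map (algebraMap ℚ_[ℓ] (AlgebraicClosure ℚ_[ℓ])) := by
          unfold K3h32.RS.actM
          rw [blockDiagonal'_map]
          exact map_zero _
        rw [h4, K3h32.RS.res_vecMul_bd]
        by_cases hj : j = i
        · subst hj
          rw [K3h32.RS.res_ext, K3h32.RS.res_ext]
        · rw [K3h32.RS.res_ext_ne hj, K3h32.RS.res_ext_ne hj, zero_vecMul]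
    | zero =>
      rw [map_zero]
      exact Submodule.zero_mem _
    | add f g _ _ hf hg =>
      rw [map_add]
      exact Submodule.add_mem _ hf hg
    | smul a f _ hf =>
      rw [map_smul]
      exact Submodule.smul_mem _ _ hf
  · rw [symProduct_eq]
    exact hcon.1
  · intro U hU W hW hst
    rw [symProduct_eq] at hW ⊢
    refine hcon.2 U hU W hW fun σ hσ p hp => ?_
    have h3 := hst σ hσ p hp
    rwa [act_eq] at h3

end Pool.Agent.Results.MP_fa5bba_nt.RankinSelbergPowers
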