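import Pool.Agent.K3h98.RFH.Main

/-!
# Irreducibility for every `ℓ` from finitely many Hecke polynomials

Let `π` be an algebraic cuspidal automorphic representation of `GL_n` over `ℚ` and
`ρ : Gal(ℚbar/ℚ) → GL_n(ℚbar_ℓ)` a continuous representation attached to `π`.  For a finite set `T` of
at least three unramified primes `p ≠ ℓ` we look at the Hecke polynomials of `π` at the `p ∈ T`, with
the multisets `S p` of their roots (the Satake parameters of `π_p ⊗ |det|^((1-n)/2)`).

* If `ρ` has a subquotient of dimension `k`, there is a rational number `a / N` such that for every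
  `p ∈ T` some `k` of the roots at `p` have product `p ^ (a / N)`, up to a root of unity.
* Suppose that the Hecke polynomial at one `p ∈ T` has coefficients in a field `E`, and has over `E` an
  irreducible factor `P` of prime degree `q > n / 2`, and that the quotient of some two roots of `P`
  is not a root of unity.  Then every subrepresentation of `ρ` has dimension at least `q` or at most
  `n - q` (so `ρ` has an irreducible constituent of dimension at least `q`).
* Therefore `ρ` is irreducible if every `k` with `0 < k ≤ n / 2` is excluded by the first criterion or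
  by the second one (that is, `k > n - q` for some `p` and `q`).
* In particular, if `n` is a prime number and the Hecke polynomial at one `p ∈ T` is irreducible over
  `E`, and two of its roots have a quotient which is not a root of unity, then `ρ` is irreducible.

Since the conditions do not involve `ℓ`, they give the irreducibility for all `ℓ` not in `T` (and for
all `ℓ`, if they hold for two disjoint sets `T`), over the algebraic closure `ℚbar_ℓ`.  Nothing is
assumed at the infinite place (no regularity), no self-duality, no polarization, no purity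
(Ramanujan), nothing at `ℓ` (`ρ` may be not Hodge-Tate), and only finitely many primes are used.

Proof.  The determinants of the subquotients are continuous characters of `Gal(ℚbar/ℚ)` with
algebraic values at three Frobenius elements; by the `ℓ`-adic six exponentials theorem (proved in
the library `Pool.Agent.Y115`) they are rational powers of the cyclotomic character up to finite
order.  This gives the first statement.  For the second one, let `s` be an element of order `q` in
the Galois group over `E` of the splitting field `L` of the Hecke polynomial `P * R`.  It permutes the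
roots of `P` cyclically and fixes the roots of `R`.  Let `α` be a root of `P`, let `I` be a proper
nonempty subset of `{0, …, q - 1}` and `f = ∑ X ^ i`, `i ∈ I`.  A relation between the roots
`s ^ i α`, `i ∈ I`, and some roots of `R` implies that `f(s) (s - 1) α` is torsion in the group `Lˣ`
(written additively), and `(1 + X + … + X ^ (q - 1))(s) (s - 1) α = 0`.  The polynomials `f` and
`1 + X + … + X ^ (q - 1)` are prime to each other over `ℚ`, since the latter is irreducible; so
`(s - 1) α` is torsion, that is, all quotients of two roots of `P` are roots of unity.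
-/

set_option autoImplicit false

namespace Pool.Agent.Results.MP_fa5bba_nt.RelationFreeHecke

open NumberField Polynomial Matrix Module

/-- `Q` is a prime ideal above the prime number `p` of the ring of all algebraic integers. -/
def PrimeOver (p : ℕ) (Q : Ideal (𝓞 (AlgebraicClosure ℚ))) : Prop :=
  Q.IsPrime ∧ (p : 𝓞 (AlgebraicClosure ℚ)) ∈ Q

/-- `g` is in the inertia group at `Q`. -/
def IsInertia (Q : Ideal (𝓞 (AlgebraicClosure ℚ))) (g : Gal(AlgebraicClosure ℚ/ℚ)) : Prop :=
  ∀ x : 𝓞 (AlgebraicClosure ℚ), g • x - x ∈ Q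

/-- `g` is an (arithmetic) Frobenius element at the prime ideal `Q` above `p`. -/
def IsFrobenius (p : ℕ) (Q : Ideal (𝓞 (AlgebraicClosure ℚ))) (g : Gal(AlgebraicClosure ℚ/ℚ)) :
    Prop := ∀ x : 𝓞 (AlgebraicClosure ℚ), g • x - x ^ p ∈ Q

variable {ℓ : ℕ} [Fact ℓ.Prime] {n : ℕ}

/-- The matrix of `g`. -/
noncomputable def mat (ρ : Gal(AlgebraicClosure ℚ/ℚ) →* GL (Fin n) (PadicAlgCl ℓ))
    (g : Gal(AlgebraicClosure ℚ/ℚ)) : Matrix (Fin n) (Fin n) (PadicAlgCl ℓ) :=
  (ρ g : GL (Fin n) (PadicAlgCl ℓ))

/-- The representation `ρ` is unramified at `p`, and the eigenvalues (with multiplicities) of every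
geometric Frobenius element at `p` correspond under `ι` to the complex numbers in `S`. -/
structure AttachedAt (ρ : Gal(AlgebraicClosure ℚ/ℚ) →* GL (Fin n) (PadicAlgCl ℓ))
    (ι : PadicAlgCl ℓ →+* ℂ) (p : ℕ) (S : Multiset ℂ) : Prop where
  unramified : ∀ Q, PrimeOver p Q → ∀ g, IsInertia Q g → ρ g = 1
  frobenius : ∀ Q, PrimeOver p Q → ∀ g, IsFrobenius p Q g → ((mat ρ g⁻¹).charpoly.map ι).roots = S

/-- `U` is a subrepresentation of `ρ`. -/
def Stable (ρ : Gal(AlgebraicClosure ℚ/ℚ) →* GL (Fin n) (PadicAlgCl ℓ))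
    (U : Submodule (PadicAlgCl ℓ) (Fin n → PadicAlgCl ℓ)) : Prop := ∀ g, ∀ x ∈ U, mat ρ g *ᵥ x ∈ U

/-- `ρ` is irreducible. -/
def Irreducible (ρ : Gal(AlgebraicClosure ℚ/ℚ) →* GL (Fin n) (PadicAlgCl ℓ)) : Prop :=
  0 < n ∧ ∀ U, Stable ρ U → U = ⊥ ∨ U = ⊤

/-- There is a rational number `a / N` such that for every `p ∈ T` some `k` members of the multiset
`S p` have product `p ^ (a / N)`, up to a root of unity. -/
def CommonRelation (T : Set ℕ) (S : ℕ → Multiset ℂ) (k : ℕ) : Prop :=
  ∃ (N : ℕ) (a : ℤ), 0 < N ∧ ∀ p ∈ T, ∃ B ≤ S p, Multiset.card B = k ∧ B.prod ^ N = (p : ℂ) ^ a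

/-- The complex numbers in `S` are the roots (with multiplicities) of a polynomial `P * R` of degree
less than `2 q` over some subfield `E` of `ℂ`, with `P` irreducible over `E` of the prime degree `q`,
and the quotient of some two roots of `P` is not a root of unity. -/
def PrimeFactor (S : Multiset ℂ) (q : ℕ) : Prop :=
  q.Prime ∧ ∃ (E : Subfield ℂ) (P R : E[X]), _root_.Irreducible P ∧ R ≠ 0 ∧ P.natDegree = q ∧
    R.natDegree < q ∧ S = ((P * R).map E.subtype).roots ∧
    ∃ x ∈ (P.map E.subtype).roots, ∃ y ∈ (P.map E.subtype).roots, ∀ M : ℕ, 0 < M → x ^ M ≠ y ^ M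

/-- **Irreducibility for every `ℓ` from finitely many Hecke polynomials.**

Let complex numbers `S p` be given for the primes `p` (in the application the eigenvalues of the
Satake parameters `a_σ`, `σ = π_p ⊗ |det|^((1-n)/2)`, of an algebraic cuspidal automorphic
representation `π` of `GL_n`), algebraic for the `p` in a set `T` of at least three primes.  Let
`ℓ ∉ T`, and let `ρ` be continuous, and attached to `S` at the primes in `T`.  Then:

* every subrepresentation `U` of `ρ` gives a common relation of size `dim U` and one of size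
  `n - dim U`, and if the Hecke polynomial at some `p ∈ T` has an irreducible factor of prime degree
  `q > n / 2` with two roots whose quotient is not a root of unity, the dimension of `U` is at least
  `q` or at most `n - q`;
* `ρ` is irreducible if for all `k` with `0 < k ≤ n / 2` there is no common relation of size `k`, or
  such a factor of degree `q > n - k` at some `p ∈ T`;
* `ρ` is irreducible if `n` is prime, and if for some `p ∈ T` the Hecke polynomial is irreducible
  over some field containing its coefficients and has two roots whose quotient is not a root of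
  unity. -/
theorem result (ℓ : ℕ) [Fact ℓ.Prime] {n : ℕ} (hn : 0 < n) (S : ℕ → Multiset ℂ) (T : Set ℕ)
    (hT3 : 3 ≤ T.encard) (hT : ∀ p ∈ T, p.Prime ∧ p ≠ ℓ)
    (halg : ∀ p ∈ T, ∀ a ∈ S p, IsAlgebraic ℚ a) (ι : PadicAlgCl ℓ →+* ℂ)
    (ρ : Gal(AlgebraicClosure ℚ/ℚ) →* GL (Fin n) (PadicAlgCl ℓ)) (hρ : Continuous ρ)
    (hS : ∀ p ∈ T, AttachedAt ρ ι p (S p)) :
    (∀ U, Stable ρ U → CommonRelation T S (finrank (PadicAlgCl ℓ) U) ∧
      CommonRelation T S (n - finrank (PadicAlgCl ℓ) U) ∧
      ∀ p ∈ T, ∀ q, PrimeFactor (S p) q →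
        finrank (PadicAlgCl ℓ) U + q ≤ n ∨ q ≤ finrank (PadicAlgCl ℓ) U) ∧
    ((∀ k, 0 < k → 2 * k ≤ n → ¬ CommonRelation T S k ∨
      ∃ p ∈ T, ∃ q, PrimeFactor (S p) q ∧ n < q + k) → Irreducible ρ) ∧
    ((∃ p ∈ T, PrimeFactor (S p) n) → Irreducible ρ) := by
  classical
  have hgood : ∀ p ∈ T, ∀ Q : Ideal (𝓞 (AlgebraicClosure ℚ)), Q.IsPrime →
      (p : 𝓞 (AlgebraicClosure ℚ)) ∈ Q → ∀ g, IsFrobenius p Q g →
      ((mat ρ g⁻¹).charpoly.map ι).roots = S p :=
    fun p hp Q' hQ' hpQ' g hg => (hS p hp).frobenius Q' ⟨hQ', hpQ'⟩ g hg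
  have hcard : ∀ p ∈ T, Multiset.card (S p) = n := by
    intro p hp
    obtain ⟨Q, σ, hQ, hpQ, hσ⟩ := Pool.Agent.Y115.T.exists_frobQ (hT p hp).1
    rw [← hgood p hp Q hQ.isPrime hpQ σ hσ]
    have hsplit : (((mat ρ σ⁻¹).charpoly).map ι).Splits := IsAlgClosed.splits _
    rw [← hsplit.natDegree_eq_card_roots, Polynomial.natDegree_map,
      Matrix.charpoly_natDegree_eq_dim, Fintype.card_fin]
  have hst : ∀ U : Submodule (PadicAlgCl ℓ) (Fin n → PadicAlgCl ℓ), Stable ρ U →
      ∀ g, U ≤ U.comap (Pool.Agent.Y115.R.act ρ g) := fun U hU g x hx => hU g x hx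
  have hbot : Stable ρ ⊥ := by
    intro g x hx
    rw [Submodule.mem_bot] at hx ⊢
    rw [hx, mulVec_zero]
  have htop : Stable ρ ⊤ := fun g x _ => Submodule.mem_top
  have hrel1 : ∀ U, Stable ρ U → CommonRelation T S (finrank (PadicAlgCl ℓ) U) := by
    intro U hU
    obtain ⟨N, a, hN, h⟩ := Pool.Agent.K3h98.RFH.relation ρ hρ ι T hT3 hT S hgood halg ⊥ U
      (hst _ hbot) (hst _ hU) bot_le
    refine ⟨N, a, hN, fun p hp => ?_⟩
    obtain ⟨B, hB, hBc, hBp⟩ := h p hp
    rw [finrank_bot, zero_add] at hBc
    exact ⟨B, hB, hBc, hBp⟩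
  have hrel2 : ∀ U, Stable ρ U → CommonRelation T S (n - finrank (PadicAlgCl ℓ) U) := by
    intro U hU
    obtain ⟨N, a, hN, h⟩ := Pool.Agent.K3h98.RFH.relation ρ hρ ι T hT3 hT S hgood halg U ⊤
      (hst _ hU) (hst _ htop) le_top
    refine ⟨N, a, hN, fun p hp => ?_⟩
    obtain ⟨B, hB, hBc, hBp⟩ := h p hp
    rw [finrank_top, finrank_fin_fun] at hBc
    exact ⟨B, hB, by omega, hBp⟩
  have hdim : ∀ p ∈ T, ∀ q, PrimeFactor (S p) q → ∀ k, CommonRelation T S k →
      k + q ≤ n ∨ q ≤ k := by
    rintro p hp q ⟨hq, E, P, R, hP, hR, hPq, hRq, hSp, hnd⟩ k ⟨N, a, hN, h⟩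
    obtain ⟨B, hB, hBc, hBp⟩ := h p hp
    have hn' : q + R.natDegree = n := by
      have hsplit : ((P * R).map E.subtype).Splits := IsAlgClosed.splits _
      rw [← hcard p hp, hSp, ← hsplit.natDegree_eq_card_roots, Polynomial.natDegree_map,
        natDegree_mul hP.ne_zero hR, hPq]
    rw [hSp] at hB
    have h1 := Pool.Agent.K3h98.RFH.card_of_rel E.subtype P R hP hR hq hPq hRq hnd B hB
      ((p : ℚ) ^ a) (zpow_ne_zero _ (Nat.cast_ne_zero.2 (hT p hp).1.ne_zero)) N hN (by
        rw [hBp]; push_cast; rfl)
    rw [hBc] at h1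
    omega
  have hcrit : (∀ k, 0 < k → 2 * k ≤ n → ¬ CommonRelation T S k ∨
      ∃ p ∈ T, ∃ q, PrimeFactor (S p) q ∧ n < q + k) → Irreducible ρ := by
    intro hk
    refine ⟨hn, fun U hU => ?_⟩
    by_contra hcon
    push Not at hcon
    have h0 : 0 < finrank (PadicAlgCl ℓ) U :=
      Nat.pos_of_ne_zero fun h => hcon.1 (Submodule.finrank_eq_zero.1 h)
    have h1 : finrank (PadicAlgCl ℓ) U < n := by
      have := Submodule.finrank_lt hcon.2
      rwa [finrank_fin_fun] at this
    have key : ∀ k, 0 < k → 2 * k ≤ n → CommonRelation T S k → False := by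
      intro k hk0 hkn hrel
      rcases hk k hk0 hkn with h | ⟨p, hp, q, hq, hqk⟩
      · exact h hrel
      · have hqn : n < 2 * q := by omega
        rcases hdim p hp q hq k hrel with h | h <;> omega
    rcases le_or_gt (2 * finrank (PadicAlgCl ℓ) U) n with h | h
    · exact key _ h0 h (hrel1 U hU)
    · exact key (n - finrank (PadicAlgCl ℓ) U) (by omega) (by omega) (hrel2 U hU)
  refine ⟨fun U hU => ⟨hrel1 U hU, hrel2 U hU, fun p hp q hq => hdim p hp q hq _ (hrel1 U hU)⟩,
    hcrit, ?_⟩
  rintro ⟨p, hp, hq⟩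
  exact hcrit fun k hk _ => Or.inr ⟨p, hp, n, hq, by omega⟩

end Pool.Agent.Results.MP_fa5bba_nt.RelationFreeHecke
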